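import Pool.Agent.helper14.NS.Q45b.PN6

/-!
Generated: certificates.
-/

namespace Pool.Agent.helper14.NS.Q45b

open Pool.Agent.helper31.IA (Z)
open Pool.Agent.helper31.IX (Op XOps runX Cov CovD cov_split covD_split)
open Pool.Agent.helper31.IC (TD)
open Pool.Agent.helper63.RG (reloc)
open Pool.Agent.helper63.NF hiding TD
open Pool.Agent.helper4.NS
open Pool.Agent.helper14.CF (xE covD_E)
open Pool.Agent.helper14.NR (share)

mutual
theorem A6_c0_t5 : CovD 1 gA6 [(18235260928, 2066219008), (412316860416, 137438953472), (274877906944, 274877906944)] :=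
  covD_E kA6_eq (.n 1 (.n 0 (.n 2 (.n 2 (.l 0) (.l 0)) (.n 2 (.l 0) (.l 0))) (.n 2 (.n 2 (.l 0) (.l 0)) (.n 2 (.l 0) (.l 0)))) (.n 2 (.n 0 (.n 2 (.l 0) (.l 0)) (.n 2 (.l 0) (.l 0))) (.n 2 (.l 0) (.l 0))))
    [(18235260928, 2066219008), (412316860416, 137438953472), (274877906944, 274877906944)] rfl (by decide +kernel)
theorem A6_c0_t7 : CovD 1 gA6 [(22367698944, 2066219008), (343597383680, 68719476736), (274877906944, 274877906944)] :=
  covD_E kA6_eq (.n 1 (.n 2 (.n 0 (.n 2 (.l 0) (.l 0)) (.n 2 (.l 0) (.l 0))) (.n 2 (.l 0) (.l 0))) (.n 2 (.n 2 (.n 0 (.l 0) (.l 0)) (.l 0)) (.n 2 (.l 0) (.l 0))))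
    [(22367698944, 2066219008), (343597383680, 68719476736), (274877906944, 274877906944)] rfl (by decide +kernel)
end

mutual
theorem A6_c0_t8 : CovD 1 gA6 [(22367698944, 2066219008), (481036337152, 68719476736), (274877906944, 274877906944)] :=
  covD_E kA6_eq (.n 1 (.n 2 (.n 2 (.l 0) (.l 0)) (.n 2 (.l 0) (.l 0))) (.n 2 (.n 2 (.l 0) (.l 0)) (.n 2 (.l 0) (.l 0))))
    [(22367698944, 2066219008), (481036337152, 68719476736), (274877906944, 274877906944)] rfl (by decide +kernel)
theorem A6_c0_t10 : CovD 1 gA6 [(18235260928, 2066219008), (412316860416, 137438953472), (824633720832, 274877906944)] :=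
  covD_E kA6_eq (.n 1 (.n 0 (.n 2 (.n 2 (.l 0) (.l 0)) (.n 2 (.l 0) (.l 0))) (.n 2 (.n 2 (.l 0) (.l 0)) (.n 2 (.l 0) (.l 0)))) (.n 2 (.n 2 (.l 0) (.l 0)) (.n 2 (.l 0) (.l 0))))
    [(18235260928, 2066219008), (412316860416, 137438953472), (824633720832, 274877906944)] rfl (by decide +kernel)
end

mutual
theorem A6_c0_t11 : CovD 1 gA6 [(22367698944, 2066219008), (412316860416, 137438953472), (824633720832, 274877906944)] :=
  covD_E kA6_eq (.n 1 (.n 1 (.n 2 (.n 2 (.l 0) (.l 0)) (.n 2 (.l 0) (.l 0))) (.n 2 (.n 2 (.l 0) (.l 0)) (.n 2 (.l 0) (.l 0)))) (.n 0 (.n 1 (.n 2 (.l 0) (.l 0)) (.n 2 (.l 0) (.l 0))) (.n 2 (.n 2 (.l 0) (.l 0)) (.n 2 (.l 0) (.l 0)))))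
    [(22367698944, 2066219008), (412316860416, 137438953472), (824633720832, 274877906944)] rfl (by decide +kernel)
theorem A6_c0_t14 : CovD 1 gA6 [(18235260928, 2066219008), (412316860416, 137438953472), (1374389534720, 274877906944)] :=
  covD_E kA6_eq (.n 1 (.n 0 (.n 2 (.n 2 (.l 0) (.l 0)) (.n 1 (.l 0) (.l 0))) (.n 2 (.n 2 (.l 0) (.l 0)) (.n 1 (.l 0) (.l 0)))) (.n 2 (.n 2 (.l 0) (.l 0)) (.n 0 (.n 1 (.l 0) (.l 0)) (.n 1 (.l 0) (.l 0)))))
    [(18235260928, 2066219008), (412316860416, 137438953472), (1374389534720, 274877906944)] rfl (by decide +kernel)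
end

mutual
theorem A6_c0_t16 : CovD 1 gA6 [(22367698944, 2066219008), (343597383680, 68719476736), (1374389534720, 274877906944)] :=
  covD_E kA6_eq (.n 0 (.n 2 (.n 2 (.l 0) (.l 0)) (.n 2 (.l 0) (.n 0 (.l 0) (.l 0)))) (.n 1 (.n 2 (.n 2 (.l 0) (.l 0)) (.n 2 (.l 0) (.l 0))) (.n 2 (.n 2 (.l 0) (.l 0)) (.n 2 (.l 0) (.l 0)))))
    [(22367698944, 2066219008), (343597383680, 68719476736), (1374389534720, 274877906944)] rfl (by decide +kernel)
theorem A6_c0_t17 : CovD 1 gA6 [(22367698944, 2066219008), (481036337152, 68719476736), (1374389534720, 274877906944)] :=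
  covD_E kA6_eq (.n 1 (.n 2 (.n 2 (.l 0) (.l 0)) (.n 2 (.l 0) (.l 0))) (.n 2 (.n 2 (.l 0) (.l 0)) (.n 2 (.l 0) (.l 0))))
    [(22367698944, 2066219008), (481036337152, 68719476736), (1374389534720, 274877906944)] rfl (by decide +kernel)
end

mutual
theorem A6_c0_t20 : CovD 1 gA6 [(17202151424, 1033109504), (412316860416, 137438953472), (1924145348608, 274877906944)] :=
  covD_E kA6_eq (.n 1 (.n 2 (.n 1 (.l 0) (.l 0)) (.n 2 (.l 0) (.l 0))) (.n 2 (.n 1 (.l 0) (.l 0)) (.n 2 (.l 0) (.l 0))))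
    [(17202151424, 1033109504), (412316860416, 137438953472), (1924145348608, 274877906944)] rfl (by decide +kernel)
theorem A6_c0_t21 : CovD 1 gA6 [(19268370432, 1033109504), (412316860416, 137438953472), (1924145348608, 274877906944)] :=
  covD_E kA6_eq (.n 1 (.n 2 (.n 2 (.l 0) (.l 0)) (.n 2 (.l 0) (.n 0 (.l 0) (.l 0)))) (.n 2 (.n 2 (.l 0) (.l 0)) (.n 2 (.l 0) (.l 0))))
    [(19268370432, 1033109504), (412316860416, 137438953472), (1924145348608, 274877906944)] rfl (by decide +kernel)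
end

mutual
theorem A6_c0_t23 : CovD 1 gA6 [(22367698944, 2066219008), (343597383680, 68719476736), (1924145348608, 274877906944)] :=
  covD_E kA6_eq (.n 1 (.n 2 (.n 2 (.n 0 (.l 0) (.l 0)) (.n 2 (.l 0) (.l 0))) (.n 2 (.n 2 (.l 0) (.l 0)) (.n 2 (.l 0) (.l 0)))) (.n 0 (.n 2 (.n 2 (.l 0) (.l 0)) (.n 2 (.l 0) (.l 0))) (.n 2 (.n 2 (.l 0) (.l 0)) (.n 2 (.l 0) (.l 0)))))
    [(22367698944, 2066219008), (343597383680, 68719476736), (1924145348608, 274877906944)] rfl (by decide +kernel)
theorem A6_c0_t24 : CovD 1 gA6 [(22367698944, 2066219008), (481036337152, 68719476736), (1924145348608, 274877906944)] :=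
  covD_E kA6_eq (.n 1 (.n 2 (.n 2 (.l 0) (.l 0)) (.n 0 (.n 2 (.l 0) (.l 0)) (.n 2 (.l 0) (.l 0)))) (.n 2 (.n 2 (.l 0) (.l 0)) (.n 2 (.l 0) (.l 0))))
    [(22367698944, 2066219008), (481036337152, 68719476736), (1924145348608, 274877906944)] rfl (by decide +kernel)
end

mutual
theorem A6_c0_t29 : CovD 1 gA6 [(17202151424, 1033109504), (412316860416, 137438953472), (2473901162496, 274877906944)] :=
  covD_E kA6_eq (.n 1 (.n 2 (.n 2 (.l 0) (.n 0 (.l 0) (.l 0))) (.n 1 (.n 2 (.l 0) (.l 0)) (.n 2 (.l 0) (.l 0)))) (.n 2 (.n 2 (.l 0) (.l 0)) (.n 0 (.n 2 (.l 0) (.l 0)) (.n 2 (.l 0) (.l 0)))))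
    [(17202151424, 1033109504), (412316860416, 137438953472), (2473901162496, 274877906944)] rfl (by decide +kernel)
theorem A6_c0_t30 : CovD 1 gA6 [(19268370432, 1033109504), (412316860416, 137438953472), (2473901162496, 274877906944)] :=
  covD_E kA6_eq (.n 1 (.n 0 (.n 2 (.n 2 (.l 0) (.l 0)) (.n 2 (.l 0) (.l 0))) (.n 2 (.n 2 (.l 0) (.l 0)) (.n 2 (.l 0) (.l 0)))) (.n 2 (.n 2 (.l 0) (.l 0)) (.n 2 (.l 0) (.l 0))))
    [(19268370432, 1033109504), (412316860416, 137438953472), (2473901162496, 274877906944)] rfl (by decide +kernel)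
end

mutual
theorem A6_c0_t32 : CovD 1 gA6 [(21334589440, 1033109504), (412316860416, 137438953472), (2473901162496, 274877906944)] :=
  covD_E kA6_eq (.n 1 (.n 0 (.n 2 (.n 2 (.l 0) (.l 0)) (.n 2 (.l 0) (.l 0))) (.n 2 (.n 2 (.l 0) (.l 0)) (.n 2 (.l 0) (.l 0)))) (.n 2 (.n 2 (.l 0) (.l 0)) (.n 2 (.l 0) (.l 0))))
    [(21334589440, 1033109504), (412316860416, 137438953472), (2473901162496, 274877906944)] rfl (by decide +kernel)
theorem A6_c0_t33 : CovD 1 gA6 [(23400808448, 1033109504), (412316860416, 137438953472), (2473901162496, 274877906944)] :=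
  covD_E kA6_eq (.n 1 (.n 1 (.n 2 (.n 2 (.l 0) (.l 0)) (.n 2 (.l 0) (.l 0))) (.n 2 (.n 2 (.l 0) (.l 0)) (.n 2 (.l 0) (.l 0)))) (.n 2 (.n 2 (.l 0) (.l 0)) (.n 2 (.l 0) (.l 0))))
    [(23400808448, 1033109504), (412316860416, 137438953472), (2473901162496, 274877906944)] rfl (by decide +kernel)
end

mutual
theorem A6_c0_t38 : CovD 1 gA6 [(17202151424, 1033109504), (343597383680, 68719476736), (2886218022912, 137438953472)] :=
  covD_E kA6_eq (.n 2 (.n 2 (.l 0) (.n 0 (.l 0) (.l 0))) (.n 1 (.n 2 (.l 0) (.l 0)) (.n 2 (.l 0) (.l 0))))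
    [(17202151424, 1033109504), (343597383680, 68719476736), (2886218022912, 137438953472)] rfl (by decide +kernel)
theorem A6_c0_t39 : CovD 1 gA6 [(17202151424, 1033109504), (343597383680, 68719476736), (3161095929856, 137438953472)] :=
  covD_E kA6_eq (.n 1 (.n 2 (.n 2 (.l 0) (.n 0 (.l 0) (.l 0))) (.n 2 (.n 2 (.l 0) (.l 0)) (.n 0 (.n 2 (.l 0) (.l 0)) (.l 0)))) (.n 2 (.n 2 (.l 0) (.l 0)) (.n 2 (.n 0 (.l 0) (.l 0)) (.n 2 (.l 0) (.l 0)))))
    [(17202151424, 1033109504), (343597383680, 68719476736), (3161095929856, 137438953472)] rfl (by decide +kernel)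
end

mutual
theorem A6_c0_t40 : CovD 1 gA6 [(17202151424, 1033109504), (481036337152, 68719476736), (3023656976384, 274877906944)] :=
  covD_E kA6_eq (.n 2 (.n 2 (.n 1 (.l 0) (.l 0)) (.n 2 (.l 0) (.n 0 (.l 0) (.l 0)))) (.n 1 (.n 2 (.n 2 (.l 0) (.l 0)) (.n 0 (.n 2 (.l 0) (.l 0)) (.l 0))) (.n 2 (.n 0 (.l 0) (.l 0)) (.n 2 (.l 0) (.l 0)))))
    [(17202151424, 1033109504), (481036337152, 68719476736), (3023656976384, 274877906944)] rfl (by decide +kernel)
theorem A6_c0_t41 : CovD 1 gA6 [(19268370432, 1033109504), (412316860416, 137438953472), (3023656976384, 274877906944)] :=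
  covD_E kA6_eq (.n 1 (.n 1 (.n 2 (.n 2 (.l 0) (.l 0)) (.n 2 (.l 0) (.l 0))) (.n 2 (.n 2 (.l 0) (.l 0)) (.n 2 (.l 0) (.l 0)))) (.n 2 (.n 2 (.l 0) (.n 0 (.l 0) (.l 0))) (.n 0 (.n 2 (.l 0) (.l 0)) (.n 2 (.l 0) (.l 0)))))
    [(19268370432, 1033109504), (412316860416, 137438953472), (3023656976384, 274877906944)] rfl (by decide +kernel)
end

mutual
theorem A6_c0_t42 : CovD 1 gA6 [(22367698944, 2066219008), (412316860416, 137438953472), (3023656976384, 274877906944)] :=
  covD_E kA6_eq (.n 0 (.n 1 (.n 2 (.n 2 (.n 0 (.l 0) (.l 0)) (.l 0)) (.n 2 (.l 0) (.l 0))) (.n 2 (.n 2 (.l 0) (.l 0)) (.n 1 (.l 0) (.l 0)))) (.n 1 (.n 2 (.n 2 (.l 0) (.l 0)) (.n 0 (.l 0) (.l 0))) (.n 2 (.n 1 (.l 0) (.l 0)) (.l 0))))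
    [(22367698944, 2066219008), (412316860416, 137438953472), (3023656976384, 274877906944)] rfl (by decide +kernel)
theorem A6_c0_t50 : CovD 1 gA6 [(16685596672, 516554752), (343597383680, 68719476736), (3367254360064, 68719476736)] :=
  covD_E kA6_eq (.n 1 (.n 2 (.n 0 (.n 2 (.l 0) (.l 0)) (.l 0)) (.n 1 (.n 0 (.n 2 (.l 0) (.n 2 (.l 0) (.l 0))) (.l 0)) (.n 2 (.l 0) (.n 2 (.l 0) (.l 0))))) (.n 2 (.n 2 (.l 0) (.l 0)) (.n 0 (.n 2 (.l 0) (.n 1 (.l 0) (.l 0))) (.l 0))))
    [(16685596672, 516554752), (343597383680, 68719476736), (3367254360064, 68719476736)] rfl (by decide +kernel)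
end

mutual
theorem A6_c0_t51 : CovD 1 gA6 [(16685596672, 516554752), (481036337152, 68719476736), (3367254360064, 68719476736)] :=
  covD_E kA6_eq (.n 1 (.n 2 (.n 0 (.l 0) (.l 0)) (.n 2 (.l 0) (.l 0))) (.n 2 (.l 0) (.n 1 (.l 0) (.l 0))))
    [(16685596672, 516554752), (481036337152, 68719476736), (3367254360064, 68719476736)] rfl (by decide +kernel)
theorem A6_c0_t57 : CovD 1 gA6 [(16298180608, 129138688), (309237645312, 34359738368), (3470333575168, 34359738368)] :=
  covD_E kA6_eq (.n 2 (.n 1 (.n 2 (.l 0) (.n 1 (.l 0) (.l 0))) (.n 2 (.l 0) (.l 0))) (.n 2 (.n 1 (.n 2 (.l 0) (.n 1 (.l 0) (.l 0))) (.n 2 (.l 0) (.l 0))) (.n 2 (.n 2 (.n 1 (.l 0) (.l 0)) (.l 1)) (.l 1))))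
    [(16298180608, 129138688), (309237645312, 34359738368), (3470333575168, 34359738368)] rfl (by decide +kernel)
end

mutual
theorem A6_c0_t58 : CovD 1 gA6 [(16298180608, 129138688), (377957122048, 34359738368), (3470333575168, 34359738368)] :=
  covD_E kA6_eq (.n 1 (.n 2 (.n 2 (.l 0) (.l 0)) (.n 2 (.l 0) (.n 2 (.l 0) (.l 0)))) (.n 2 (.l 0) (.n 2 (.l 0) (.l 0))))
    [(16298180608, 129138688), (377957122048, 34359738368), (3470333575168, 34359738368)] rfl (by decide +kernel)
theorem A6_c0_t59 : CovD 1 gA6 [(16556457984, 129138688), (343597383680, 68719476736), (3470333575168, 34359738368)] :=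
  covD_E kA6_eq (.n 1 (.n 1 (.n 2 (.l 0) (.n 2 (.l 0) (.l 0))) (.n 2 (.l 0) (.n 2 (.l 0) (.l 0)))) (.n 2 (.l 0) (.n 1 (.l 0) (.l 0))))
    [(16556457984, 129138688), (343597383680, 68719476736), (3470333575168, 34359738368)] rfl (by decide +kernel)
end

mutual
theorem A6_c0_t60 : CovD 1 gA6 [(16943874048, 258277376), (343597383680, 68719476736), (3470333575168, 34359738368)] :=
  covD_E kA6_eq (.n 1 (.n 2 (.l 0) (.n 1 (.l 0) (.l 0))) (.n 2 (.l 0) (.l 0)))
    [(16943874048, 258277376), (343597383680, 68719476736), (3470333575168, 34359738368)] rfl (by decide +kernel)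
theorem A6_c0_t61 : CovD 1 gA6 [(16685596672, 516554752), (481036337152, 68719476736), (3470333575168, 34359738368)] :=
  covD_E kA6_eq (.n 1 (.n 0 (.n 2 (.l 0) (.n 2 (.l 0) (.l 0))) (.n 0 (.l 0) (.l 0))) (.n 2 (.l 0) (.n 1 (.l 0) (.l 0))))
    [(16685596672, 516554752), (481036337152, 68719476736), (3470333575168, 34359738368)] rfl (by decide +kernel)
end

mutual
theorem A6_c0_t62 : CovD 1 gA6 [(16685596672, 516554752), (412316860416, 137438953472), (3539053051904, 34359738368)] :=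
  covD_E kA6_eq (.n 2 (.n 0 (.n 1 (.l 1) (.l 1)) (.n 1 (.l 1) (.n 0 (.l 1) (.l 1)))) (.l 1))
    [(16685596672, 516554752), (412316860416, 137438953472), (3539053051904, 34359738368)] rfl (by decide +kernel)
theorem A6_c0_t63 : CovD 1 gA6 [(16685596672, 516554752), (412316860416, 137438953472), (3710851743744, 137438953472)] :=
  covD_E kA6_eq (.l 1)
    [(16685596672, 516554752), (412316860416, 137438953472), (3710851743744, 137438953472)] rfl (by decide +kernel)
end

mutual
theorem A6_c0_t66 : CovD 1 gA6 [(17718706176, 516554752), (412316860416, 137438953472), (3367254360064, 68719476736)] :=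
  covD_E kA6_eq (.n 1 (.n 1 (.n 2 (.l 0) (.l 0)) (.n 2 (.l 0) (.l 0))) (.n 2 (.l 0) (.n 0 (.l 0) (.l 0))))
    [(17718706176, 516554752), (412316860416, 137438953472), (3367254360064, 68719476736)] rfl (by decide +kernel)
theorem A6_c0_t67 : CovD 1 gA6 [(17718706176, 516554752), (412316860416, 137438953472), (3504693313536, 68719476736)] :=
  covD_E kA6_eq (.n 2 (.n 1 (.n 0 (.n 1 (.l 0) (.l 0)) (.l 0)) (.n 1 (.l 0) (.l 0))) (.n 2 (.n 1 (.n 1 (.l 0) (.l 0)) (.n 0 (.l 0) (.l 0))) (.l 1)))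
    [(17718706176, 516554752), (412316860416, 137438953472), (3504693313536, 68719476736)] rfl (by decide +kernel)
end

mutual
theorem A6_c0_t68 : CovD 1 gA6 [(17718706176, 516554752), (412316860416, 137438953472), (3710851743744, 137438953472)] :=
  covD_E kA6_eq (.l 1)
    [(17718706176, 516554752), (412316860416, 137438953472), (3710851743744, 137438953472)] rfl (by decide +kernel)
theorem A6_c0_t69 : CovD 1 gA6 [(19268370432, 1033109504), (412316860416, 137438953472), (3573412790272, 274877906944)] :=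
  covD_E kA6_eq (.n 1 (.n 2 (.n 2 (.n 1 (.l 0) (.l 0)) (.n 0 (.n 0 (.n 1 (.l 0) (.l 0)) (.l 0)) (.l 0))) (.l 1)) (.n 2 (.n 2 (.n 1 (.l 0) (.l 0)) (.n 0 (.n 1 (.l 0) (.l 0)) (.l 0))) (.n 0 (.l 1) (.l 1))))
    [(19268370432, 1033109504), (412316860416, 137438953472), (3573412790272, 274877906944)] rfl (by decide +kernel)
end

mutual
theorem A6_c0_t70 : CovD 1 gA6 [(22367698944, 2066219008), (412316860416, 137438953472), (3573412790272, 274877906944)] :=
  covD_E kA6_eq (.n 2 (.n 0 (.n 1 (.n 2 (.l 0) (.l 0)) (.n 2 (.l 0) (.l 0))) (.n 1 (.l 0) (.l 0))) (.n 2 (.n 0 (.n 0 (.l 1) (.n 0 (.l 1) (.l 1))) (.n 2 (.n 0 (.n 0 (.l 1) (.l 1)) (.n 2 (.l 0) (.l 1))) (.l 1))) (.l 1)))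
    [(22367698944, 2066219008), (412316860416, 137438953472), (3573412790272, 274877906944)] rfl (by decide +kernel)
theorem A6_c0_t71 : CovD 1 gA6 [(20301479936, 4132438016), (412316860416, 137438953472), (4123168604160, 274877906944)] :=
  covD_E kA6_eq (.n 0 (.l 1) (.l 1))
    [(20301479936, 4132438016), (412316860416, 137438953472), (4123168604160, 274877906944)] rfl (by decide +kernel)
end

mutual
theorem A6_c0_t72 : CovD 1 gA6 [(20301479936, 4132438016), (412316860416, 137438953472), (6597069766656, 2199023255552)] :=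
  covD_E kA6_eq (.n 2 (.n 2 (.n 2 (.l 1) (.l 1)) (.n 2 (.l 1) (.l 1))) (.n 2 (.l 1) (.l 1)))
    [(20301479936, 4132438016), (412316860416, 137438953472), (6597069766656, 2199023255552)] rfl (by decide +kernel)
theorem B6_c0_t1 : CovD 1 gB6 [(18235260928, 2066219008), (412316860416, 137438953472), (68719476736, 68719476736)] :=
  covD_E kB6_eq (.n 2 (.n 2 (.n 2 (.n 2 (.l 1) (.l 1)) (.n 2 (.l 1) (.l 1))) (.n 2 (.n 2 (.l 1) (.l 1)) (.l 1))) (.n 2 (.n 2 (.l 1) (.l 1)) (.n 0 (.l 1) (.l 1))))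
    [(18235260928, 2066219008), (412316860416, 137438953472), (68719476736, 68719476736)] rfl (by decide +kernel)
end

mutual
theorem B6_c0_t2 : CovD 1 gB6 [(22367698944, 2066219008), (412316860416, 137438953472), (68719476736, 68719476736)] :=
  covD_E kB6_eq (.n 2 (.n 2 (.n 0 (.n 2 (.l 1) (.l 1)) (.n 2 (.l 1) (.l 1))) (.n 2 (.l 1) (.l 1))) (.n 2 (.n 2 (.l 1) (.l 1)) (.n 0 (.l 1) (.l 1))))
    [(22367698944, 2066219008), (412316860416, 137438953472), (68719476736, 68719476736)] rfl (by decide +kernel)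
theorem D6_c0_t1 : CovD 1 gD6 [(20301479936, 4132438016), (343597383680, 68719476736), (863610339328, 863610339328)] :=
  covD_E kD6_eq (.n 2 (.n 2 (.n 2 (.l 0) (.l 0)) (.n 2 (.l 0) (.l 0))) (.n 2 (.n 2 (.l 0) (.l 0)) (.n 2 (.n 0 (.l 0) (.l 0)) (.n 2 (.l 0) (.l 0)))))
    [(20301479936, 4132438016), (343597383680, 68719476736), (863610339328, 863610339328)] rfl (by decide +kernel)
end

mutual
theorem D6_c0_t2 : CovD 1 gD6 [(20301479936, 4132438016), (481036337152, 68719476736), (863610339328, 863610339328)] :=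
  covD_E kD6_eq (.n 2 (.n 2 (.n 2 (.l 0) (.l 0)) (.n 2 (.l 0) (.l 0))) (.n 2 (.n 2 (.l 0) (.l 0)) (.n 2 (.n 0 (.l 0) (.l 0)) (.n 2 (.l 0) (.l 0)))))
    [(20301479936, 4132438016), (481036337152, 68719476736), (863610339328, 863610339328)] rfl (by decide +kernel)
theorem E6_c0_t3 : CovD 1 gE6 [(20301479936, 4132438016), (412316860416, 137438953472), (107951292416, 107951292416)] :=
  covD_E kE6_eq (.l 1)
    [(20301479936, 4132438016), (412316860416, 137438953472), (107951292416, 107951292416)] rfl (by decide +kernel)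
end

mutual
theorem E6_c0_t5 : CovD 1 gE6 [(20301479936, 4132438016), (412316860416, 137438953472), (269878231040, 53975646208)] :=
  covD_E kE6_eq (.l 1)
    [(20301479936, 4132438016), (412316860416, 137438953472), (269878231040, 53975646208)] rfl (by decide +kernel)
theorem E6_c0_t10 : CovD 1 gE6 [(16685596672, 516554752), (343597383680, 68719476736), (377829523456, 53975646208)] :=
  covD_E kE6_eq (.n 2 (.n 2 (.n 0 (.n 2 (.l 1) (.n 2 (.n 0 (.n 2 (.l 1) (.n 1 (.n 1 (.l 1) (.l 0)) (.l 0))) (.l 1)) (.n 1 (.n 1 (.l 0) (.l 0)) (.l 0)))) (.l 1)) (.n 1 (.n 1 (.l 0) (.l 0)) (.l 0))) (.l 0))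
    [(16685596672, 516554752), (343597383680, 68719476736), (377829523456, 53975646208)] rfl (by decide +kernel)
end

mutual
theorem E6_c0_t11 : CovD 1 gE6 [(16685596672, 516554752), (481036337152, 68719476736), (377829523456, 53975646208)] :=
  covD_E kE6_eq (.n 2 (.n 2 (.n 2 (.l 1) (.n 1 (.l 0) (.l 0))) (.n 0 (.l 0) (.l 0))) (.l 0))
    [(16685596672, 516554752), (481036337152, 68719476736), (377829523456, 53975646208)] rfl (by decide +kernel)
theorem E6_c0_t12 : CovD 1 gE6 [(17718706176, 516554752), (412316860416, 137438953472), (377829523456, 53975646208)] :=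
  covD_E kE6_eq (.n 2 (.n 2 (.l 1) (.n 1 (.n 1 (.l 0) (.l 0)) (.l 0))) (.n 1 (.l 0) (.l 0)))
    [(17718706176, 516554752), (412316860416, 137438953472), (377829523456, 53975646208)] rfl (by decide +kernel)
end

mutual
theorem E6_c0_t13 : CovD 1 gE6 [(19268370432, 1033109504), (412316860416, 137438953472), (377829523456, 53975646208)] :=
  covD_E kE6_eq (.n 1 (.n 2 (.l 1) (.l 0)) (.n 2 (.l 1) (.l 0)))
    [(19268370432, 1033109504), (412316860416, 137438953472), (377829523456, 53975646208)] rfl (by decide +kernel)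
theorem E6_c0_t14 : CovD 1 gE6 [(22367698944, 2066219008), (412316860416, 137438953472), (377829523456, 53975646208)] :=
  covD_E kE6_eq (.n 0 (.n 2 (.l 1) (.n 1 (.l 0) (.l 0))) (.l 1))
    [(22367698944, 2066219008), (412316860416, 137438953472), (377829523456, 53975646208)] rfl (by decide +kernel)
end

mutual
theorem E6_c0_t16 : CovD 1 gE6 [(20301479936, 4132438016), (412316860416, 137438953472), (539756462080, 107951292416)] :=
  covD_E kE6_eq (.n 2 (.n 0 (.n 1 (.n 0 (.n 0 (.l 0) (.l 0)) (.l 0)) (.n 2 (.l 0) (.l 0))) (.n 0 (.n 1 (.l 0) (.l 0)) (.n 1 (.l 0) (.l 0)))) (.n 0 (.n 0 (.n 0 (.l 0) (.l 0)) (.l 0)) (.n 0 (.l 0) (.l 0))))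
    [(20301479936, 4132438016), (412316860416, 137438953472), (539756462080, 107951292416)] rfl (by decide +kernel)
theorem E6_c0_t17 : CovD 1 gE6 [(20301479936, 4132438016), (412316860416, 137438953472), (755659046912, 107951292416)] :=
  covD_E kE6_eq (.n 2 (.n 0 (.n 0 (.l 0) (.l 0)) (.n 0 (.l 0) (.l 0))) (.n 0 (.n 0 (.l 0) (.l 0)) (.n 0 (.l 0) (.l 0))))
    [(20301479936, 4132438016), (412316860416, 137438953472), (755659046912, 107951292416)] rfl (by decide +kernel)
end

theorem E6_c0_t18 : CovD 1 gE6 [(20301479936, 4132438016), (412316860416, 137438953472), (1295415508992, 431805169664)] :=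
  covD_E kE6_eq (.n 2 (.n 2 (.n 2 (.n 1 (.l 0) (.l 0)) (.n 1 (.l 0) (.l 0))) (.n 2 (.n 1 (.l 0) (.l 0)) (.n 1 (.l 0) (.l 0)))) (.n 2 (.n 2 (.n 1 (.l 0) (.l 0)) (.n 1 (.l 0) (.l 0))) (.n 2 (.n 1 (.l 0) (.l 0)) (.n 1 (.l 0) (.l 0)))))
    [(20301479936, 4132438016), (412316860416, 137438953472), (1295415508992, 431805169664)] rfl (by decide +kernel)

theorem A6_c0_t6 : CovD 1 gA6 [(22367698944, 2066219008), (412316860416, 137438953472), (274877906944, 274877906944)] :=
  covD_split 1 (by decide +kernel) A6_c0_t7 A6_c0_t8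

theorem A6_c0_t4 : CovD 1 gA6 [(20301479936, 4132438016), (412316860416, 137438953472), (274877906944, 274877906944)] :=
  covD_split 0 (by decide +kernel) A6_c0_t5 A6_c0_t6

theorem A6_c0_t9 : CovD 1 gA6 [(20301479936, 4132438016), (412316860416, 137438953472), (824633720832, 274877906944)] :=
  covD_split 0 (by decide +kernel) A6_c0_t10 A6_c0_t11

theorem A6_c0_t3 : CovD 1 gA6 [(20301479936, 4132438016), (412316860416, 137438953472), (549755813888, 549755813888)] :=
  covD_split 2 (by decide +kernel) A6_c0_t4 A6_c0_t9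

theorem A6_c0_t15 : CovD 1 gA6 [(22367698944, 2066219008), (412316860416, 137438953472), (1374389534720, 274877906944)] :=
  covD_split 1 (by decide +kernel) A6_c0_t16 A6_c0_t17

theorem A6_c0_t13 : CovD 1 gA6 [(20301479936, 4132438016), (412316860416, 137438953472), (1374389534720, 274877906944)] :=
  covD_split 0 (by decide +kernel) A6_c0_t14 A6_c0_t15

theorem A6_c0_t19 : CovD 1 gA6 [(18235260928, 2066219008), (412316860416, 137438953472), (1924145348608, 274877906944)] :=
  covD_split 0 (by decide +kernel) A6_c0_t20 A6_c0_t21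

theorem A6_c0_t22 : CovD 1 gA6 [(22367698944, 2066219008), (412316860416, 137438953472), (1924145348608, 274877906944)] :=
  covD_split 1 (by decide +kernel) A6_c0_t23 A6_c0_t24

theorem A6_c0_t18 : CovD 1 gA6 [(20301479936, 4132438016), (412316860416, 137438953472), (1924145348608, 274877906944)] :=
  covD_split 0 (by decide +kernel) A6_c0_t19 A6_c0_t22

theorem A6_c0_t12 : CovD 1 gA6 [(20301479936, 4132438016), (412316860416, 137438953472), (1649267441664, 549755813888)] :=
  covD_split 2 (by decide +kernel) A6_c0_t13 A6_c0_t18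

theorem A6_c0_t2 : CovD 1 gA6 [(20301479936, 4132438016), (412316860416, 137438953472), (1099511627776, 1099511627776)] :=
  covD_split 2 (by decide +kernel) A6_c0_t3 A6_c0_t12

theorem A6_c0_t28 : CovD 1 gA6 [(18235260928, 2066219008), (412316860416, 137438953472), (2473901162496, 274877906944)] :=
  covD_split 0 (by decide +kernel) A6_c0_t29 A6_c0_t30

theorem A6_c0_t31 : CovD 1 gA6 [(22367698944, 2066219008), (412316860416, 137438953472), (2473901162496, 274877906944)] :=
  covD_split 0 (by decide +kernel) A6_c0_t32 A6_c0_t33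

theorem A6_c0_t27 : CovD 1 gA6 [(20301479936, 4132438016), (412316860416, 137438953472), (2473901162496, 274877906944)] :=
  covD_split 0 (by decide +kernel) A6_c0_t28 A6_c0_t31

theorem A6_c0_t37 : CovD 1 gA6 [(17202151424, 1033109504), (343597383680, 68719476736), (3023656976384, 274877906944)] :=
  covD_split 2 (by decide +kernel) A6_c0_t38 A6_c0_t39

theorem A6_c0_t36 : CovD 1 gA6 [(17202151424, 1033109504), (412316860416, 137438953472), (3023656976384, 274877906944)] :=
  covD_split 1 (by decide +kernel) A6_c0_t37 A6_c0_t40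

theorem A6_c0_t35 : CovD 1 gA6 [(18235260928, 2066219008), (412316860416, 137438953472), (3023656976384, 274877906944)] :=
  covD_split 0 (by decide +kernel) A6_c0_t36 A6_c0_t41

theorem A6_c0_t34 : CovD 1 gA6 [(20301479936, 4132438016), (412316860416, 137438953472), (3023656976384, 274877906944)] :=
  covD_split 0 (by decide +kernel) A6_c0_t35 A6_c0_t42

theorem A6_c0_t26 : CovD 1 gA6 [(20301479936, 4132438016), (412316860416, 137438953472), (2748779069440, 549755813888)] :=
  covD_split 2 (by decide +kernel) A6_c0_t27 A6_c0_t34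

theorem A6_c0_t49 : CovD 1 gA6 [(16685596672, 516554752), (412316860416, 137438953472), (3367254360064, 68719476736)] :=
  covD_split 1 (by decide +kernel) A6_c0_t50 A6_c0_t51

theorem A6_c0_t56 : CovD 1 gA6 [(16298180608, 129138688), (343597383680, 68719476736), (3470333575168, 34359738368)] :=
  covD_split 1 (by decide +kernel) A6_c0_t57 A6_c0_t58

theorem A6_c0_t55 : CovD 1 gA6 [(16427319296, 258277376), (343597383680, 68719476736), (3470333575168, 34359738368)] :=
  covD_split 0 (by decide +kernel) A6_c0_t56 A6_c0_t59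

theorem A6_c0_t54 : CovD 1 gA6 [(16685596672, 516554752), (343597383680, 68719476736), (3470333575168, 34359738368)] :=
  covD_split 0 (by decide +kernel) A6_c0_t55 A6_c0_t60

theorem A6_c0_t53 : CovD 1 gA6 [(16685596672, 516554752), (412316860416, 137438953472), (3470333575168, 34359738368)] :=
  covD_split 1 (by decide +kernel) A6_c0_t54 A6_c0_t61

theorem A6_c0_t52 : CovD 1 gA6 [(16685596672, 516554752), (412316860416, 137438953472), (3504693313536, 68719476736)] :=
  covD_split 2 (by decide +kernel) A6_c0_t53 A6_c0_t62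

theorem A6_c0_t48 : CovD 1 gA6 [(16685596672, 516554752), (412316860416, 137438953472), (3435973836800, 137438953472)] :=
  covD_split 2 (by decide +kernel) A6_c0_t49 A6_c0_t52

theorem A6_c0_t47 : CovD 1 gA6 [(16685596672, 516554752), (412316860416, 137438953472), (3573412790272, 274877906944)] :=
  covD_split 2 (by decide +kernel) A6_c0_t48 A6_c0_t63

theorem A6_c0_t65 : CovD 1 gA6 [(17718706176, 516554752), (412316860416, 137438953472), (3435973836800, 137438953472)] :=
  covD_split 2 (by decide +kernel) A6_c0_t66 A6_c0_t67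

theorem A6_c0_t64 : CovD 1 gA6 [(17718706176, 516554752), (412316860416, 137438953472), (3573412790272, 274877906944)] :=
  covD_split 2 (by decide +kernel) A6_c0_t65 A6_c0_t68

theorem A6_c0_t46 : CovD 1 gA6 [(17202151424, 1033109504), (412316860416, 137438953472), (3573412790272, 274877906944)] :=
  covD_split 0 (by decide +kernel) A6_c0_t47 A6_c0_t64

theorem A6_c0_t45 : CovD 1 gA6 [(18235260928, 2066219008), (412316860416, 137438953472), (3573412790272, 274877906944)] :=
  covD_split 0 (by decide +kernel) A6_c0_t46 A6_c0_t69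

theorem A6_c0_t44 : CovD 1 gA6 [(20301479936, 4132438016), (412316860416, 137438953472), (3573412790272, 274877906944)] :=
  covD_split 0 (by decide +kernel) A6_c0_t45 A6_c0_t70

theorem A6_c0_t43 : CovD 1 gA6 [(20301479936, 4132438016), (412316860416, 137438953472), (3848290697216, 549755813888)] :=
  covD_split 2 (by decide +kernel) A6_c0_t44 A6_c0_t71

theorem A6_c0_t25 : CovD 1 gA6 [(20301479936, 4132438016), (412316860416, 137438953472), (3298534883328, 1099511627776)] :=
  covD_split 2 (by decide +kernel) A6_c0_t26 A6_c0_t43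

theorem A6_c0_t1 : CovD 1 gA6 [(20301479936, 4132438016), (412316860416, 137438953472), (2199023255552, 2199023255552)] :=
  covD_split 2 (by decide +kernel) A6_c0_t2 A6_c0_t25

theorem A6_c0 : CovD 1 gA6 [(20301479936, 4132438016), (412316860416, 137438953472), (4398046511104, 4398046511104)] :=
  covD_split 2 (by decide +kernel) A6_c0_t1 A6_c0_t72

theorem B6_c0 : CovD 1 gB6 [(20301479936, 4132438016), (412316860416, 137438953472), (68719476736, 68719476736)] :=
  covD_split 0 (by decide +kernel) B6_c0_t1 B6_c0_t2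

theorem D6_c0 : CovD 1 gD6 [(20301479936, 4132438016), (412316860416, 137438953472), (863610339328, 863610339328)] :=
  covD_split 1 (by decide +kernel) D6_c0_t1 D6_c0_t2

theorem E6_c0_t9 : CovD 1 gE6 [(16685596672, 516554752), (412316860416, 137438953472), (377829523456, 53975646208)] :=
  covD_split 1 (by decide +kernel) E6_c0_t10 E6_c0_t11

theorem E6_c0_t8 : CovD 1 gE6 [(17202151424, 1033109504), (412316860416, 137438953472), (377829523456, 53975646208)] :=
  covD_split 0 (by decide +kernel) E6_c0_t9 E6_c0_t12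

theorem E6_c0_t7 : CovD 1 gE6 [(18235260928, 2066219008), (412316860416, 137438953472), (377829523456, 53975646208)] :=
  covD_split 0 (by decide +kernel) E6_c0_t8 E6_c0_t13

theorem E6_c0_t6 : CovD 1 gE6 [(20301479936, 4132438016), (412316860416, 137438953472), (377829523456, 53975646208)] :=
  covD_split 0 (by decide +kernel) E6_c0_t7 E6_c0_t14

theorem E6_c0_t4 : CovD 1 gE6 [(20301479936, 4132438016), (412316860416, 137438953472), (323853877248, 107951292416)] :=
  covD_split 2 (by decide +kernel) E6_c0_t5 E6_c0_t6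

theorem E6_c0_t2 : CovD 1 gE6 [(20301479936, 4132438016), (412316860416, 137438953472), (215902584832, 215902584832)] :=
  covD_split 2 (by decide +kernel) E6_c0_t3 E6_c0_t4

theorem E6_c0_t15 : CovD 1 gE6 [(20301479936, 4132438016), (412316860416, 137438953472), (647707754496, 215902584832)] :=
  covD_split 2 (by decide +kernel) E6_c0_t16 E6_c0_t17

theorem E6_c0_t1 : CovD 1 gE6 [(20301479936, 4132438016), (412316860416, 137438953472), (431805169664, 431805169664)] :=
  covD_split 2 (by decide +kernel) E6_c0_t2 E6_c0_t15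

theorem E6_c0 : CovD 1 gE6 [(20301479936, 4132438016), (412316860416, 137438953472), (863610339328, 863610339328)] :=
  covD_split 2 (by decide +kernel) E6_c0_t1 E6_c0_t18

end Pool.Agent.helper14.NS.Q45b
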