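import Pool.Agent.helper14.NS.Q45b.PZ

/-!
Generated: certificates.
-/

namespace Pool.Agent.helper14.NS.Q45b

open Pool.Agent.helper31.IA (Z)
open Pool.Agent.helper31.IX (Op XOps runX Cov CovD cov_split covD_split)
open Pool.Agent.helper31.IC (TD)
open Pool.Agent.helper63.RG (reloc)
open Pool.Agent.helper63.NF hiding TD
open Pool.Agent.helper4.NS
open Pool.Agent.helper14.CF (xE covD_E)
open Pool.Agent.helper14.NR (share)

mutual
theorem Z_c0_t4 : CovD 1 gZ [(20301479936, 4132438016), (309237645312, 34359738368), (114621939712, 114621939712)] :=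
  covD_E kZ_eq (.n 2 (.n 2 (.n 2 (.l 0) (.n 0 (.l 0) (.l 0))) (.n 0 (.n 1 (.l 0) (.l 0)) (.n 1 (.l 0) (.l 0)))) (.n 0 (.n 1 (.n 2 (.l 0) (.l 0)) (.n 2 (.l 0) (.l 0))) (.n 2 (.n 0 (.l 0) (.l 0)) (.l 0))))
    [(20301479936, 4132438016), (309237645312, 34359738368), (114621939712, 114621939712)] rfl (by decide +kernel)
theorem Z_c0_t6 : CovD 1 gZ [(18235260928, 2066219008), (309237645312, 34359738368), (343865819136, 114621939712)] :=
  covD_E kZ_eq (.n 2 (.n 2 (.n 1 (.l 0) (.l 0)) (.n 2 (.l 0) (.l 0))) (.n 2 (.n 2 (.l 0) (.n 0 (.l 0) (.l 0))) (.n 2 (.n 0 (.l 0) (.l 0)) (.n 2 (.l 0) (.l 0)))))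
    [(18235260928, 2066219008), (309237645312, 34359738368), (343865819136, 114621939712)] rfl (by decide +kernel)
end

mutual
theorem Z_c0_t7 : CovD 1 gZ [(22367698944, 2066219008), (309237645312, 34359738368), (343865819136, 114621939712)] :=
  covD_E kZ_eq (.n 2 (.n 2 (.l 0) (.n 0 (.l 0) (.l 0))) (.n 2 (.n 2 (.l 0) (.l 0)) (.n 2 (.l 0) (.l 0))))
    [(22367698944, 2066219008), (309237645312, 34359738368), (343865819136, 114621939712)] rfl (by decide +kernel)
theorem Z_c0_t11 : CovD 1 gZ [(18235260928, 2066219008), (309237645312, 34359738368), (515798728704, 57310969856)] :=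
  covD_E kZ_eq (.n 2 (.n 2 (.n 2 (.l 0) (.l 0)) (.n 0 (.n 1 (.l 0) (.l 0)) (.l 0))) (.n 2 (.n 0 (.n 1 (.l 0) (.l 0)) (.l 0)) (.n 2 (.l 0) (.l 0))))
    [(18235260928, 2066219008), (309237645312, 34359738368), (515798728704, 57310969856)] rfl (by decide +kernel)
end

mutual
theorem Z_c0_t12 : CovD 1 gZ [(18235260928, 2066219008), (309237645312, 34359738368), (630420668416, 57310969856)] :=
  covD_E kZ_eq (.n 2 (.n 2 (.n 2 (.l 0) (.l 0)) (.n 2 (.l 0) (.l 0))) (.n 0 (.n 0 (.n 2 (.l 0) (.l 0)) (.n 2 (.l 0) (.l 0))) (.n 2 (.l 0) (.l 0))))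
    [(18235260928, 2066219008), (309237645312, 34359738368), (630420668416, 57310969856)] rfl (by decide +kernel)
theorem Z_c0_t15 : CovD 1 gZ [(17202151424, 1033109504), (309237645312, 34359738368), (745042608128, 57310969856)] :=
  covD_E kZ_eq (.n 2 (.n 2 (.n 0 (.l 0) (.l 0)) (.l 0)) (.n 2 (.l 0) (.l 0)))
    [(17202151424, 1033109504), (309237645312, 34359738368), (745042608128, 57310969856)] rfl (by decide +kernel)
end

mutual
theorem Z_c0_t17 : CovD 1 gZ [(17202151424, 1033109504), (309237645312, 34359738368), (831009062912, 28655484928)] :=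
  covD_E kZ_eq (.n 2 (.l 0) (.l 0))
    [(17202151424, 1033109504), (309237645312, 34359738368), (831009062912, 28655484928)] rfl (by decide +kernel)
theorem Z_c0_t19 : CovD 1 gZ [(16685596672, 516554752), (309237645312, 34359738368), (888320032768, 28655484928)] :=
  covD_E kZ_eq (.n 1 (.n 2 (.l 0) (.n 2 (.l 0) (.n 1 (.n 0 (.l 0) (.l 0)) (.l 0)))) (.n 2 (.l 0) (.n 2 (.l 0) (.n 1 (.l 0) (.l 0)))))
    [(16685596672, 516554752), (309237645312, 34359738368), (888320032768, 28655484928)] rfl (by decide +kernel)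
end

mutual
theorem Z_c0_t20 : CovD 1 gZ [(17718706176, 516554752), (309237645312, 34359738368), (888320032768, 28655484928)] :=
  covD_E kZ_eq (.n 1 (.n 2 (.l 0) (.n 2 (.l 0) (.n 1 (.l 0) (.l 0)))) (.n 2 (.l 0) (.n 2 (.l 0) (.n 1 (.l 0) (.l 0)))))
    [(17718706176, 516554752), (309237645312, 34359738368), (888320032768, 28655484928)] rfl (by decide +kernel)
theorem Z_c0_t22 : CovD 1 gZ [(19268370432, 1033109504), (309237645312, 34359738368), (745042608128, 57310969856)] :=
  covD_E kZ_eq (.n 2 (.n 2 (.l 0) (.l 0)) (.n 2 (.l 0) (.l 0)))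
    [(19268370432, 1033109504), (309237645312, 34359738368), (745042608128, 57310969856)] rfl (by decide +kernel)
end

mutual
theorem Z_c0_t24 : CovD 1 gZ [(19268370432, 1033109504), (309237645312, 34359738368), (831009062912, 28655484928)] :=
  covD_E kZ_eq (.n 2 (.l 0) (.n 0 (.l 0) (.l 0)))
    [(19268370432, 1033109504), (309237645312, 34359738368), (831009062912, 28655484928)] rfl (by decide +kernel)
theorem Z_c0_t25 : CovD 1 gZ [(19268370432, 1033109504), (309237645312, 34359738368), (888320032768, 28655484928)] :=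
  covD_E kZ_eq (.n 1 (.n 0 (.n 2 (.l 0) (.n 2 (.l 0) (.n 1 (.l 0) (.l 0)))) (.n 2 (.l 0) (.n 2 (.l 0) (.n 1 (.l 0) (.l 0))))) (.n 2 (.l 0) (.n 1 (.n 2 (.l 0) (.n 0 (.l 0) (.l 0))) (.n 0 (.l 0) (.l 0)))))
    [(19268370432, 1033109504), (309237645312, 34359738368), (888320032768, 28655484928)] rfl (by decide +kernel)
end

mutual
theorem Z_c0_t27 : CovD 1 gZ [(22367698944, 2066219008), (309237645312, 34359738368), (573109698560, 114621939712)] :=
  covD_E kZ_eq (.n 2 (.n 2 (.n 2 (.l 0) (.l 0)) (.n 2 (.l 0) (.l 0))) (.n 2 (.n 2 (.l 0) (.l 0)) (.n 2 (.l 0) (.n 0 (.l 0) (.l 0)))))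
    [(22367698944, 2066219008), (309237645312, 34359738368), (573109698560, 114621939712)] rfl (by decide +kernel)
theorem Z_c0_t30 : CovD 1 gZ [(21334589440, 1033109504), (309237645312, 34359738368), (745042608128, 57310969856)] :=
  covD_E kZ_eq (.n 2 (.n 2 (.l 0) (.l 0)) (.n 2 (.l 0) (.l 0)))
    [(21334589440, 1033109504), (309237645312, 34359738368), (745042608128, 57310969856)] rfl (by decide +kernel)
end

mutual
theorem Z_c0_t31 : CovD 1 gZ [(21334589440, 1033109504), (309237645312, 34359738368), (859664547840, 57310969856)] :=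
  covD_E kZ_eq (.n 2 (.n 2 (.l 0) (.n 0 (.l 0) (.l 0))) (.n 1 (.n 0 (.n 2 (.l 0) (.n 2 (.l 0) (.n 1 (.l 0) (.l 0)))) (.n 2 (.l 0) (.n 2 (.l 0) (.n 0 (.l 0) (.l 0))))) (.n 2 (.l 0) (.n 2 (.l 0) (.n 0 (.l 0) (.l 0))))))
    [(21334589440, 1033109504), (309237645312, 34359738368), (859664547840, 57310969856)] rfl (by decide +kernel)
theorem Z_c0_t33 : CovD 1 gZ [(23400808448, 1033109504), (309237645312, 34359738368), (745042608128, 57310969856)] :=
  covD_E kZ_eq (.n 2 (.n 2 (.l 0) (.l 0)) (.n 2 (.l 0) (.l 0)))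
    [(23400808448, 1033109504), (309237645312, 34359738368), (745042608128, 57310969856)] rfl (by decide +kernel)
end

mutual
theorem Z_c0_t34 : CovD 1 gZ [(23400808448, 1033109504), (309237645312, 34359738368), (859664547840, 57310969856)] :=
  covD_E kZ_eq (.n 2 (.n 2 (.l 0) (.n 0 (.l 0) (.l 0))) (.n 1 (.n 1 (.n 2 (.l 0) (.n 2 (.l 0) (.n 0 (.l 0) (.l 0)))) (.n 2 (.l 0) (.n 2 (.l 0) (.l 0)))) (.n 2 (.n 0 (.l 0) (.l 0)) (.n 2 (.l 0) (.n 0 (.l 0) (.l 0))))))
    [(23400808448, 1033109504), (309237645312, 34359738368), (859664547840, 57310969856)] rfl (by decide +kernel)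
theorem Z_c0_t37 : CovD 1 gZ [(20301479936, 4132438016), (377957122048, 34359738368), (114621939712, 114621939712)] :=
  covD_E kZ_eq (.n 2 (.n 2 (.n 2 (.l 0) (.l 0)) (.n 2 (.l 0) (.l 0))) (.n 2 (.n 2 (.l 0) (.l 0)) (.n 0 (.n 0 (.l 0) (.l 0)) (.l 0))))
    [(20301479936, 4132438016), (377957122048, 34359738368), (114621939712, 114621939712)] rfl (by decide +kernel)
end

mutual
theorem Z_c0_t38 : CovD 1 gZ [(20301479936, 4132438016), (377957122048, 34359738368), (343865819136, 114621939712)] :=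
  covD_E kZ_eq (.n 0 (.n 2 (.n 1 (.n 2 (.l 0) (.l 0)) (.n 2 (.l 0) (.l 0))) (.n 2 (.n 2 (.l 0) (.l 0)) (.n 2 (.l 0) (.l 0)))) (.n 2 (.n 2 (.l 0) (.l 0)) (.n 0 (.n 2 (.l 0) (.l 0)) (.n 2 (.l 0) (.l 0)))))
    [(20301479936, 4132438016), (377957122048, 34359738368), (343865819136, 114621939712)] rfl (by decide +kernel)
theorem Z_c0_t41 : CovD 1 gZ [(18235260928, 2066219008), (377957122048, 34359738368), (573109698560, 114621939712)] :=
  covD_E kZ_eq (.n 2 (.n 2 (.n 2 (.l 0) (.l 0)) (.n 2 (.l 0) (.l 0))) (.n 2 (.n 2 (.l 0) (.l 0)) (.n 2 (.l 0) (.n 0 (.l 0) (.l 0)))))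
    [(18235260928, 2066219008), (377957122048, 34359738368), (573109698560, 114621939712)] rfl (by decide +kernel)
end

mutual
theorem Z_c0_t43 : CovD 1 gZ [(17202151424, 1033109504), (377957122048, 34359738368), (802353577984, 114621939712)] :=
  covD_E kZ_eq (.n 2 (.n 2 (.n 2 (.l 0) (.l 0)) (.n 2 (.l 0) (.l 0))) (.n 2 (.n 2 (.l 0) (.l 0)) (.n 1 (.n 2 (.l 0) (.n 2 (.l 0) (.n 0 (.n 0 (.l 0) (.l 0)) (.l 0)))) (.n 2 (.l 0) (.n 2 (.l 0) (.n 0 (.l 0) (.l 0)))))))
    [(17202151424, 1033109504), (377957122048, 34359738368), (802353577984, 114621939712)] rfl (by decide +kernel)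
theorem Z_c0_t44 : CovD 1 gZ [(19268370432, 1033109504), (377957122048, 34359738368), (802353577984, 114621939712)] :=
  covD_E kZ_eq (.n 1 (.n 2 (.n 2 (.l 0) (.l 0)) (.n 2 (.l 0) (.n 2 (.l 0) (.n 2 (.l 0) (.n 0 (.l 0) (.l 0)))))) (.n 2 (.n 2 (.l 0) (.l 0)) (.n 2 (.l 0) (.n 2 (.l 0) (.n 0 (.l 0) (.l 0))))))
    [(19268370432, 1033109504), (377957122048, 34359738368), (802353577984, 114621939712)] rfl (by decide +kernel)
end

mutual
theorem Z_c0_t46 : CovD 1 gZ [(22367698944, 2066219008), (377957122048, 34359738368), (573109698560, 114621939712)] :=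
  covD_E kZ_eq (.n 2 (.n 0 (.n 2 (.l 0) (.l 0)) (.n 2 (.l 0) (.l 0))) (.n 2 (.n 0 (.l 0) (.l 0)) (.n 2 (.l 0) (.l 0))))
    [(22367698944, 2066219008), (377957122048, 34359738368), (573109698560, 114621939712)] rfl (by decide +kernel)
theorem Z_c0_t48 : CovD 1 gZ [(22367698944, 2066219008), (377957122048, 34359738368), (745042608128, 57310969856)] :=
  covD_E kZ_eq (.n 2 (.n 2 (.l 0) (.l 0)) (.n 2 (.l 0) (.l 0)))
    [(22367698944, 2066219008), (377957122048, 34359738368), (745042608128, 57310969856)] rfl (by decide +kernel)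
end

mutual
theorem Z_c0_t49 : CovD 1 gZ [(22367698944, 2066219008), (377957122048, 34359738368), (859664547840, 57310969856)] :=
  covD_E kZ_eq (.n 2 (.n 2 (.l 0) (.n 0 (.l 0) (.l 0))) (.n 0 (.n 1 (.n 2 (.l 0) (.n 1 (.n 0 (.l 0) (.l 0)) (.l 0))) (.n 2 (.l 0) (.n 0 (.l 0) (.l 0)))) (.n 1 (.n 2 (.l 0) (.n 0 (.l 0) (.l 0))) (.n 2 (.l 0) (.l 0)))))
    [(22367698944, 2066219008), (377957122048, 34359738368), (859664547840, 57310969856)] rfl (by decide +kernel)
theorem Z_c0_t53 : CovD 1 gZ [(20301479936, 4132438016), (446676598784, 34359738368), (114621939712, 114621939712)] :=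
  covD_E kZ_eq (.n 2 (.n 2 (.n 2 (.l 0) (.l 0)) (.n 2 (.l 0) (.l 0))) (.n 2 (.n 2 (.l 0) (.l 0)) (.n 2 (.l 0) (.l 0))))
    [(20301479936, 4132438016), (446676598784, 34359738368), (114621939712, 114621939712)] rfl (by decide +kernel)
end

mutual
theorem Z_c0_t54 : CovD 1 gZ [(20301479936, 4132438016), (446676598784, 34359738368), (343865819136, 114621939712)] :=
  covD_E kZ_eq (.n 2 (.n 2 (.n 2 (.l 0) (.l 0)) (.n 0 (.n 0 (.l 0) (.l 0)) (.l 0))) (.n 0 (.n 2 (.n 0 (.l 0) (.l 0)) (.n 2 (.l 0) (.l 0))) (.n 2 (.l 0) (.l 0))))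
    [(20301479936, 4132438016), (446676598784, 34359738368), (343865819136, 114621939712)] rfl (by decide +kernel)
theorem Z_c0_t57 : CovD 1 gZ [(18235260928, 2066219008), (446676598784, 34359738368), (573109698560, 114621939712)] :=
  covD_E kZ_eq (.n 2 (.n 0 (.n 2 (.l 0) (.l 0)) (.n 2 (.l 0) (.l 0))) (.n 2 (.n 0 (.l 0) (.l 0)) (.n 2 (.l 0) (.l 0))))
    [(18235260928, 2066219008), (446676598784, 34359738368), (573109698560, 114621939712)] rfl (by decide +kernel)
end

mutual
theorem Z_c0_t58 : CovD 1 gZ [(18235260928, 2066219008), (446676598784, 34359738368), (802353577984, 114621939712)] :=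
  covD_E kZ_eq (.n 2 (.n 2 (.n 2 (.l 0) (.l 0)) (.n 2 (.l 0) (.l 0))) (.n 2 (.n 2 (.l 0) (.n 0 (.l 0) (.l 0))) (.n 0 (.n 1 (.n 2 (.l 0) (.n 0 (.l 0) (.l 0))) (.n 2 (.l 0) (.l 0))) (.n 2 (.l 0) (.n 1 (.l 0) (.l 0))))))
    [(18235260928, 2066219008), (446676598784, 34359738368), (802353577984, 114621939712)] rfl (by decide +kernel)
theorem Z_c0_t60 : CovD 1 gZ [(22367698944, 2066219008), (446676598784, 34359738368), (573109698560, 114621939712)] :=
  covD_E kZ_eq (.n 2 (.n 2 (.l 0) (.l 0)) (.n 0 (.n 2 (.l 0) (.l 0)) (.n 2 (.l 0) (.l 0))))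
    [(22367698944, 2066219008), (446676598784, 34359738368), (573109698560, 114621939712)] rfl (by decide +kernel)
end

mutual
theorem Z_c0_t61 : CovD 1 gZ [(22367698944, 2066219008), (446676598784, 34359738368), (802353577984, 114621939712)] :=
  covD_E kZ_eq (.n 2 (.n 0 (.n 2 (.l 0) (.l 0)) (.n 2 (.l 0) (.l 0))) (.n 2 (.n 2 (.l 0) (.l 0)) (.n 1 (.n 2 (.l 0) (.n 0 (.l 0) (.l 0))) (.n 2 (.l 0) (.l 0)))))
    [(22367698944, 2066219008), (446676598784, 34359738368), (802353577984, 114621939712)] rfl (by decide +kernel)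
theorem Z_c0_t63 : CovD 1 gZ [(20301479936, 4132438016), (515396075520, 34359738368), (229243879424, 229243879424)] :=
  covD_E kZ_eq (.n 2 (.n 2 (.n 2 (.n 2 (.l 0) (.l 0)) (.n 2 (.l 0) (.l 0))) (.n 2 (.n 2 (.l 0) (.l 0)) (.n 2 (.l 0) (.l 0)))) (.n 0 (.n 2 (.n 2 (.l 0) (.l 0)) (.n 2 (.l 0) (.l 0))) (.n 2 (.n 2 (.l 0) (.l 0)) (.n 2 (.l 0) (.l 0)))))
    [(20301479936, 4132438016), (515396075520, 34359738368), (229243879424, 229243879424)] rfl (by decide +kernel)
end

mutual
theorem Z_c0_t65 : CovD 1 gZ [(18235260928, 2066219008), (515396075520, 34359738368), (687731638272, 229243879424)] :=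
  covD_E kZ_eq (.n 2 (.n 2 (.n 2 (.l 0) (.l 0)) (.n 2 (.l 0) (.n 0 (.l 0) (.l 0)))) (.n 2 (.n 0 (.n 2 (.l 0) (.l 0)) (.n 2 (.l 0) (.l 0))) (.n 2 (.n 0 (.l 0) (.l 0)) (.n 2 (.l 0) (.n 0 (.l 0) (.l 0))))))
    [(18235260928, 2066219008), (515396075520, 34359738368), (687731638272, 229243879424)] rfl (by decide +kernel)
theorem Z_c0_t66 : CovD 1 gZ [(22367698944, 2066219008), (515396075520, 34359738368), (687731638272, 229243879424)] :=
  covD_E kZ_eq (.n 2 (.n 2 (.n 2 (.l 0) (.l 0)) (.n 2 (.l 0) (.l 0))) (.n 2 (.n 0 (.n 2 (.l 0) (.l 0)) (.n 2 (.l 0) (.l 0))) (.n 2 (.n 0 (.l 0) (.l 0)) (.n 2 (.l 0) (.l 0)))))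
    [(22367698944, 2066219008), (515396075520, 34359738368), (687731638272, 229243879424)] rfl (by decide +kernel)
end

mutual
theorem T_c0 : CovD 1 gT [(20301479936, 4132438016), (412316860416, 137438953472)] :=
  covD_E kT_eq (.n 0 (.n 0 (.n 1 (.l 0) (.n 1 (.l 0) (.l 0))) (.n 1 (.l 0) (.l 0))) (.n 1 (.l 0) (.l 0)))
    [(20301479936, 4132438016), (412316860416, 137438953472)] rfl (by decide +kernel)
theorem S_c0 : CovD 0 gS [(20301479936, 4132438016), (412316860416, 137438953472)] :=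
  covD_E kS_eq (.l 0)
    [(20301479936, 4132438016), (412316860416, 137438953472)] rfl (by decide +kernel)
end

theorem Z_c0_t5 : CovD 1 gZ [(20301479936, 4132438016), (309237645312, 34359738368), (343865819136, 114621939712)] :=
  covD_split 0 (by decide +kernel) Z_c0_t6 Z_c0_t7

theorem Z_c0_t3 : CovD 1 gZ [(20301479936, 4132438016), (309237645312, 34359738368), (229243879424, 229243879424)] :=
  covD_split 2 (by decide +kernel) Z_c0_t4 Z_c0_t5

theorem Z_c0_t10 : CovD 1 gZ [(18235260928, 2066219008), (309237645312, 34359738368), (573109698560, 114621939712)] :=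
  covD_split 2 (by decide +kernel) Z_c0_t11 Z_c0_t12

theorem Z_c0_t18 : CovD 1 gZ [(17202151424, 1033109504), (309237645312, 34359738368), (888320032768, 28655484928)] :=
  covD_split 0 (by decide +kernel) Z_c0_t19 Z_c0_t20

theorem Z_c0_t16 : CovD 1 gZ [(17202151424, 1033109504), (309237645312, 34359738368), (859664547840, 57310969856)] :=
  covD_split 2 (by decide +kernel) Z_c0_t17 Z_c0_t18

theorem Z_c0_t14 : CovD 1 gZ [(17202151424, 1033109504), (309237645312, 34359738368), (802353577984, 114621939712)] :=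
  covD_split 2 (by decide +kernel) Z_c0_t15 Z_c0_t16

theorem Z_c0_t23 : CovD 1 gZ [(19268370432, 1033109504), (309237645312, 34359738368), (859664547840, 57310969856)] :=
  covD_split 2 (by decide +kernel) Z_c0_t24 Z_c0_t25

theorem Z_c0_t21 : CovD 1 gZ [(19268370432, 1033109504), (309237645312, 34359738368), (802353577984, 114621939712)] :=
  covD_split 2 (by decide +kernel) Z_c0_t22 Z_c0_t23

theorem Z_c0_t13 : CovD 1 gZ [(18235260928, 2066219008), (309237645312, 34359738368), (802353577984, 114621939712)] :=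
  covD_split 0 (by decide +kernel) Z_c0_t14 Z_c0_t21

theorem Z_c0_t9 : CovD 1 gZ [(18235260928, 2066219008), (309237645312, 34359738368), (687731638272, 229243879424)] :=
  covD_split 2 (by decide +kernel) Z_c0_t10 Z_c0_t13

theorem Z_c0_t29 : CovD 1 gZ [(21334589440, 1033109504), (309237645312, 34359738368), (802353577984, 114621939712)] :=
  covD_split 2 (by decide +kernel) Z_c0_t30 Z_c0_t31

theorem Z_c0_t32 : CovD 1 gZ [(23400808448, 1033109504), (309237645312, 34359738368), (802353577984, 114621939712)] :=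
  covD_split 2 (by decide +kernel) Z_c0_t33 Z_c0_t34

theorem Z_c0_t28 : CovD 1 gZ [(22367698944, 2066219008), (309237645312, 34359738368), (802353577984, 114621939712)] :=
  covD_split 0 (by decide +kernel) Z_c0_t29 Z_c0_t32

theorem Z_c0_t26 : CovD 1 gZ [(22367698944, 2066219008), (309237645312, 34359738368), (687731638272, 229243879424)] :=
  covD_split 2 (by decide +kernel) Z_c0_t27 Z_c0_t28

theorem Z_c0_t8 : CovD 1 gZ [(20301479936, 4132438016), (309237645312, 34359738368), (687731638272, 229243879424)] :=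
  covD_split 0 (by decide +kernel) Z_c0_t9 Z_c0_t26

theorem Z_c0_t2 : CovD 1 gZ [(20301479936, 4132438016), (309237645312, 34359738368), (458487758848, 458487758848)] :=
  covD_split 2 (by decide +kernel) Z_c0_t3 Z_c0_t8

theorem Z_c0_t36 : CovD 1 gZ [(20301479936, 4132438016), (377957122048, 34359738368), (229243879424, 229243879424)] :=
  covD_split 2 (by decide +kernel) Z_c0_t37 Z_c0_t38

theorem Z_c0_t42 : CovD 1 gZ [(18235260928, 2066219008), (377957122048, 34359738368), (802353577984, 114621939712)] :=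
  covD_split 0 (by decide +kernel) Z_c0_t43 Z_c0_t44

theorem Z_c0_t40 : CovD 1 gZ [(18235260928, 2066219008), (377957122048, 34359738368), (687731638272, 229243879424)] :=
  covD_split 2 (by decide +kernel) Z_c0_t41 Z_c0_t42

theorem Z_c0_t47 : CovD 1 gZ [(22367698944, 2066219008), (377957122048, 34359738368), (802353577984, 114621939712)] :=
  covD_split 2 (by decide +kernel) Z_c0_t48 Z_c0_t49

theorem Z_c0_t45 : CovD 1 gZ [(22367698944, 2066219008), (377957122048, 34359738368), (687731638272, 229243879424)] :=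
  covD_split 2 (by decide +kernel) Z_c0_t46 Z_c0_t47

theorem Z_c0_t39 : CovD 1 gZ [(20301479936, 4132438016), (377957122048, 34359738368), (687731638272, 229243879424)] :=
  covD_split 0 (by decide +kernel) Z_c0_t40 Z_c0_t45

theorem Z_c0_t35 : CovD 1 gZ [(20301479936, 4132438016), (377957122048, 34359738368), (458487758848, 458487758848)] :=
  covD_split 2 (by decide +kernel) Z_c0_t36 Z_c0_t39

theorem Z_c0_t1 : CovD 1 gZ [(20301479936, 4132438016), (343597383680, 68719476736), (458487758848, 458487758848)] :=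
  covD_split 1 (by decide +kernel) Z_c0_t2 Z_c0_t35

theorem Z_c0_t52 : CovD 1 gZ [(20301479936, 4132438016), (446676598784, 34359738368), (229243879424, 229243879424)] :=
  covD_split 2 (by decide +kernel) Z_c0_t53 Z_c0_t54

theorem Z_c0_t56 : CovD 1 gZ [(18235260928, 2066219008), (446676598784, 34359738368), (687731638272, 229243879424)] :=
  covD_split 2 (by decide +kernel) Z_c0_t57 Z_c0_t58

theorem Z_c0_t59 : CovD 1 gZ [(22367698944, 2066219008), (446676598784, 34359738368), (687731638272, 229243879424)] :=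
  covD_split 2 (by decide +kernel) Z_c0_t60 Z_c0_t61

theorem Z_c0_t55 : CovD 1 gZ [(20301479936, 4132438016), (446676598784, 34359738368), (687731638272, 229243879424)] :=
  covD_split 0 (by decide +kernel) Z_c0_t56 Z_c0_t59

theorem Z_c0_t51 : CovD 1 gZ [(20301479936, 4132438016), (446676598784, 34359738368), (458487758848, 458487758848)] :=
  covD_split 2 (by decide +kernel) Z_c0_t52 Z_c0_t55

theorem Z_c0_t64 : CovD 1 gZ [(20301479936, 4132438016), (515396075520, 34359738368), (687731638272, 229243879424)] :=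
  covD_split 0 (by decide +kernel) Z_c0_t65 Z_c0_t66

theorem Z_c0_t62 : CovD 1 gZ [(20301479936, 4132438016), (515396075520, 34359738368), (458487758848, 458487758848)] :=
  covD_split 2 (by decide +kernel) Z_c0_t63 Z_c0_t64

theorem Z_c0_t50 : CovD 1 gZ [(20301479936, 4132438016), (481036337152, 68719476736), (458487758848, 458487758848)] :=
  covD_split 1 (by decide +kernel) Z_c0_t51 Z_c0_t62

theorem Z_c0 : CovD 1 gZ [(20301479936, 4132438016), (412316860416, 137438953472), (458487758848, 458487758848)] :=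
  covD_split 1 (by decide +kernel) Z_c0_t1 Z_c0_t50

end Pool.Agent.helper14.NS.Q45b
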